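import Pool.Agent.N956.MM.Law

/-!
# MP_32afb7_pr, Q1: one-dimensional stable multi-matchings with odd degrees may percolate

On the line, the stable multi-matching has an infinite component for every degree law with a
polynomial tail of exponent less than one, whatever the parity of the degrees.
-/

set_option autoImplicit false

namespace Pool.Agent.Results.MP_32afb7_pr.OddDegreesPercolate

open MeasureTheory Pool.Agent.N956.MM

/-- `G` is a stable multi-matching of the points of `Q ⊆ ℝ` with stubs `D`: a simple graph on `Q`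
in which every vertex `x` has degree exactly `D x`, such that of any two distinct points which are
not joined at least one has no incident edge longer than their distance. -/
structure IsStable (Q : Set ℝ) (D : ℝ → ℕ) (G : SimpleGraph ℝ) : Prop where
  mem : ∀ x y, G.Adj x y → x ∈ Q
  deg : ∀ x ∈ Q, (G.neighborSet x).encard = D x
  stable : ∀ x ∈ Q, ∀ y ∈ Q, x ≠ y → G.Adj x y ∨
    (∀ z, G.Adj x z → dist x z ≤ dist x y) ∨ (∀ z, G.Adj y z → dist y z ≤ dist x y)

theorem weaken {Q : Set ℝ} {D : ℝ → ℕ} {G : SimpleGraph ℝ} (h : IsStable Q D G) :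
    IsStableMultiMatching Q D G := by
  refine ⟨h.mem, fun x hx => (h.deg x hx).le, fun x hx y hy hne hna => ?_⟩
  rintro ⟨h1, h2⟩
  have e1 : ∃ z, G.Adj x z ∧ dist x y < dist x z := by
    rcases h1 with h1 | h1
    · rw [h.deg x hx] at h1
      exact absurd h1 (lt_irrefl _)
    · exact h1
  have e2 : ∃ z, G.Adj y z ∧ dist y x < dist y z := by
    rcases h2 with h2 | h2
    · rw [h.deg y hy] at h2
      exact absurd h2 (lt_irrefl _)
    · exact h2
  rcases h.stable x hx y hy hne with h3 | h3 | h3
  · exact hna h3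
  · obtain ⟨z, hz, hz2⟩ := e1
    linarith [h3 z hz]
  · obtain ⟨z, hz, hz2⟩ := e2
    rw [dist_comm y x] at hz2
    linarith [h3 z hz]

theorem strengthen {Q : Set ℝ} {D : ℝ → ℕ} {G : SimpleGraph ℝ} (h : IsStableMultiMatching Q D G)
    (hd : ∀ x ∈ Q, (G.neighborSet x).encard = D x) : IsStable Q D G := by
  refine ⟨h.mem, hd, fun x hx y hy hne => ?_⟩
  by_contra hcon
  push Not at hcon
  obtain ⟨h1, ⟨z, hz, hz2⟩, ⟨w, hw, hw2⟩⟩ := hcon
  exact h.stable x hx y hy hne h1
    ⟨Or.inr ⟨z, hz, hz2⟩, Or.inr ⟨w, hw, by rw [dist_comm y x]; exact hw2⟩⟩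

/-- **Answer to Q1: no.**  There is a degree law carried by the odd integers with
`μ([n,∞)) ≥ c n^(-a)`, `c > 0`, `a < 1`; and for every law `μ` on the positive integers with such a
tail, almost surely the marked Poisson configuration on the line has a stable multi-matching, and
every stable multi-matching of it has an infinite component. -/
theorem result :
    (∃ μ : Measure ℕ, IsProbabilityMeasure μ ∧ μ {n | Odd n} = 1 ∧ Heavy μ) ∧
    ∀ μ : Measure ℕ, IsProbabilityMeasure μ → μ {0} = 0 → Heavy μ →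
      ∀ (Ω : Type) [MeasurableSpace Ω] (P : Measure Ω) [IsProbabilityMeasure P]
        (Q : Ω → Set ℝ) (D : Ω → ℝ → ℕ), IsMarkedPoisson P μ Q D →
        ∀ᵐ ω ∂P, (∃ G, IsStable (Q ω) (D ω) G) ∧
          ∀ G, IsStable (Q ω) (D ω) G → HasInfiniteComponent G := by
  refine ⟨⟨nu, inferInstance, ?_, nu_heavy⟩, ?_⟩
  · refine le_antisymm prob_le_one ?_
    rw [← nu_odd]
    exact measure_mono fun n hn => hn.1
  · intro μ hμ _ hheavy Ω _ P _ Q D h
    have hvol : ∀ r : ℝ, 0 ≤ r → volume (Metric.closedBall (0 : ℝ) r) =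
        ENNReal.ofReal (2 * r ^ 1) := by
      intro r _
      rw [Real.volume_closedBall, pow_one]
    filter_upwards [main hheavy h 0 (by norm_num : (0 : ℝ) < 2) le_rfl hvol] with ω hω
    refine ⟨?_, fun G hG => (hω.2 G (weaken hG)).2⟩
    obtain ⟨G, hG⟩ := hω.1
    exact ⟨G, strengthen hG (hω.2 G hG).1⟩

end Pool.Agent.Results.MP_32afb7_pr.OddDegreesPercolate
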